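import Pool.Agent.Lib.EN39.Main

/-! A surface over `ℂ(t)`, birational to an Enriques surface, with a smooth rational point and
with all rational points on a proper closed subset. Coordinates `x, y, U, V = X 0, …, X 3`. -/

namespace Pool.Agent.Results.MP_521e5f_ag.CurveField

open MvPolynomial

theorem result (a : ℂ) (ha : Transcendental ℚ a) (t s : RatFunc ℂ) (ht : t = RatFunc.X)
    (hs : s = RatFunc.C a) (F₁ F₂ : MvPolynomial (Fin 4) (RatFunc ℂ))
    (h₁ : F₁ = X 2 ^ 2 -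
      C (t * (t - 1) * (t - s)) * (C (t - 1) * X 0 ^ 2 + C (t - s)) * (X 1 ^ 2 - 4))
    (h₂ : F₂ = X 3 ^ 2 -
      C (t * (t - 1) * (t - s)) * (C ((t - 1) ^ 2) * X 0 ^ 4 - C ((t - s) ^ 2)) * (X 1 ^ 2 - 1)) :
    (∃ p : Fin 4 → RatFunc ℂ, eval p F₁ = 0 ∧ eval p F₂ = 0 ∧ ∃ i j : Fin 4,
      eval p (pderiv i F₁) * eval p (pderiv j F₂) ≠ eval p (pderiv j F₁) * eval p (pderiv i F₂)) ∧
    (∀ p : Fin 4 → RatFunc ℂ, eval p F₁ = 0 → eval p F₂ = 0 → p 0 * p 2 * p 3 = 0) ∧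
    X 0 * X 2 * X 3 ∉ (Ideal.span {F₁, F₂}).radical := by
  obtain ⟨n0, n1, na, np, nm, x, U, hU, hx, hp⟩ := Pool.Agent.Lib.EN39.point a ha t s ht hs
  have h4 : (4 : MvPolynomial (Fin 4) (RatFunc ℂ)) = C 4 := rfl
  refine ⟨⟨![x, 1, U, 0], ?_, ?_, 2, 1, ?_⟩, fun p e1 e2 => ?_, ?_⟩
  · rw [h₁, h4]
    simp only [map_sub, map_mul, map_add, map_pow, eval_X, eval_C]
    exact sub_eq_zero.2 hp
  · rw [h₂]
    simp
  · have d21 : eval ![x, 1, U, 0] (pderiv 2 F₁) = 2 * U := by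
      rw [h₁, h4]
      simp [pderiv_X]
    have d22 : eval ![x, 1, U, 0] (pderiv 2 F₂) = 0 := by
      rw [h₂]
      simp [pderiv_X]
    have d12 : eval ![x, 1, U, 0] (pderiv 1 F₂) =
        -(2 * (t * (t - 1) * (t - s) * ((t - 1) ^ 2 * x ^ 4 - (t - s) ^ 2))) := by
      rw [h₂]
      simp [pderiv_X]
      ring
    rw [d21, d22, d12, mul_zero]
    exact mul_ne_zero (mul_ne_zero two_ne_zero hU) (neg_ne_zero.2 (mul_ne_zero two_ne_zero
      (mul_ne_zero (mul_ne_zero (mul_ne_zero n0 n1) na) hx)))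
  · rw [h₁, h4] at e1
    rw [h₂] at e2
    simp only [map_sub, map_mul, map_add, map_pow, eval_X, eval_C, map_one] at e1 e2
    exact Pool.Agent.Lib.EN39.nondense a ha t s (p 0) (p 1) (p 2) (p 3) ht hs (sub_eq_zero.1 e1)
      (sub_eq_zero.1 e2)
  · rintro ⟨n, hn⟩
    let L := AlgebraicClosure (RatFunc ℂ)
    have A0 : t * (t - 1) * (t - s) * ((t - 1) + (t - s)) * (-4) ≠ 0 :=
      mul_ne_zero (mul_ne_zero (mul_ne_zero (mul_ne_zero n0 n1) na) np) (by norm_num)
    have B0 : t * (t - 1) * (t - s) * (((t - 1) + (t - s)) * ((t - 1) - (t - s))) * (-1) ≠ 0 :=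
      mul_ne_zero (mul_ne_zero (mul_ne_zero (mul_ne_zero n0 n1) na) (mul_ne_zero np nm))
        (by norm_num)
    obtain ⟨u, hu⟩ := IsAlgClosed.exists_pow_nat_eq (algebraMap (RatFunc ℂ) L
      (t * (t - 1) * (t - s) * ((t - 1) + (t - s)) * (-4))) (n := 2) two_pos
    obtain ⟨w, hw⟩ := IsAlgClosed.exists_pow_nat_eq (algebraMap (RatFunc ℂ) L
      (t * (t - 1) * (t - s) * (((t - 1) + (t - s)) * ((t - 1) - (t - s))) * (-1))) (n := 2) two_pos
    have u0 : u ≠ 0 := by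
      rintro rfl
      exact (map_ne_zero _).2 A0 (by rw [← hu]; simp)
    have w0 : w ≠ 0 := by
      rintro rfl
      exact (map_ne_zero _).2 B0 (by rw [← hw]; simp)
    obtain ⟨r, q, hrq⟩ := Ideal.mem_span_pair.1 hn
    have e1 : aeval (![1, 0, u, w] : Fin 4 → L) F₁ = 0 := by
      rw [h₁]
      simp only [map_sub, map_mul, map_add, map_pow, map_neg, map_one, map_ofNat, aeval_X,
        aeval_C] at hu ⊢
      simp only [Matrix.cons_val_zero, Matrix.cons_val_one, Matrix.cons_val]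
      linear_combination hu
    have e2 : aeval (![1, 0, u, w] : Fin 4 → L) F₂ = 0 := by
      rw [h₂]
      simp only [map_sub, map_mul, map_add, map_pow, map_neg, map_one, aeval_X,
        aeval_C] at hw ⊢
      simp only [Matrix.cons_val_zero, Matrix.cons_val_one, Matrix.cons_val]
      linear_combination hw
    have e := congrArg (aeval (![1, 0, u, w] : Fin 4 → L)) hrq
    simp only [map_add, map_mul, map_pow, e1, e2, aeval_X, mul_zero, add_zero] at e
    simp only [Matrix.cons_val_zero, Matrix.cons_val, one_mul] at e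
    exact pow_ne_zero n (mul_ne_zero u0 w0) e.symm

end Pool.Agent.Results.MP_521e5f_ag.CurveField
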